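import Mathlib
import Pool.Agent.R243.HP.Fin

set_option autoImplicit false

/-!
# Measures with a Hölder continuous potential are strong limits of measures `≤ n H^(N-2+β)`

Let `μ` be a finite signed measure on a bounded open set `Ω` of `ℝ^N`, `N ≥ 2`, whose Newtonian
potential agrees almost everywhere on `Ω` with a function which is `β`-Hölder continuous on `Ω`.
Then there are signed measures `ν n` on `Ω` with `|ν n| ≤ c n H^(N-2+β)` which converge to `μ` in
total variation (`c > 0` is arbitrary).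
-/

namespace Pool.Agent.Results.MP_19b229_an.HausdorffDominatedApproximation

open Filter Topology MeasureTheory Set
open Pool.Agent.R243.HP

theorem result (N : ℕ) (hN : 2 ≤ N) (Ω : Set (EuclideanSpace ℝ (Fin N))) (hopen : IsOpen Ω)
    (hbdd : Bornology.IsBounded Ω) (β : ℝ) (hβ : 0 < β)
    (μ : SignedMeasure (EuclideanSpace ℝ (Fin N))) (hμ : μ.totalVariation Ωᶜ = 0)
    (v : EuclideanSpace ℝ (Fin N) → ℝ) (H : ℝ)
    (hv : ∀ x ∈ Ω, ∀ y ∈ Ω, |v x - v y| ≤ H * ‖x - y‖ ^ β)
    (hpot : ∀ᵐ x ∂(volume.restrict Ω), pot μ x = v x) (c : ℝ) (hc : 0 < c) :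
    ∃ ν : ℕ → SignedMeasure (EuclideanSpace ℝ (Fin N)),
      (∀ n, (ν n).totalVariation Ωᶜ = 0) ∧
      (∀ n (A : Set (EuclideanSpace ℝ (Fin N))), MeasurableSet A →
        (ν n).totalVariation A ≤
          ENNReal.ofReal (c * n) * Measure.hausdorffMeasure ((N : ℝ) - 2 + β) A) ∧
      Tendsto (fun n => (ν n - μ).totalVariation univ) atTop (𝓝 0) :=
  main hN hopen hbdd hβ hμ hv hpot hc

end Pool.Agent.Results.MP_19b229_an.HausdorffDominatedApproximation
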